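import Mathlib
import Pool.Agent.Helper70.RS6

/-!
# `N(X)` is not invariant under closed mappings for a space `X` with one non-isolated point

The spaces `X`, `Y`, `Z` of `Pool.Agent.Helper70.RS6` are examined further. Each of them is the
union of a closed discrete set and of the open set of its isolated points, and the latter is a
countable union of closed sets. So the three spaces are perfectly normal, and so is `X × Y`. The
space `X` has only one non-isolated point, so all its subspaces are paracompact.
-/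

set_option autoImplicit false

open Set Filter Topology

namespace Pool.Agent.Results.MP_8829b8_gt.OneNonIsolatedPoint

open Pool.Agent.Helper70.RS

/-- `X` is a countable union of closed discrete subspaces. -/
def SigmaClosedDiscrete (X : Type) [TopologicalSpace X] : Prop :=
  ∃ C : ℕ → Set X, (∀ n, IsClosed (C n) ∧ DiscreteTopology (C n)) ∧ (⋃ n, C n) = univ

theorem closed_of_subset {X : Type} [TopologicalSpace X] {C S : Set X} (hC : IsClosed C)
    (hd : DiscreteTopology C) (h : S ⊆ C) : IsClosed S := by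
  have h1 : S = Subtype.val '' (Subtype.val ⁻¹' S : Set C) := by
    rw [Subtype.image_preimage_coe, inter_eq_right.2 h]
  rw [h1]
  exact hC.isClosedEmbedding_subtypeVal.isClosedMap _ (isClosed_discrete _)

theorem discrete_of_closed {X : Type} [TopologicalSpace X] {C : Set X}
    (h : ∀ S : Set X, S ⊆ C → IsClosed S) : DiscreteTopology C := by
  rw [discreteTopology_iff_forall_isClosed]
  intro s
  have h1 : s = Subtype.val ⁻¹' (Subtype.val '' s : Set X) :=
    (preimage_image_eq s Subtype.val_injective).symm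
  rw [h1]
  refine (h _ ?_).preimage continuous_subtype_val
  rintro _ ⟨y, _, rfl⟩
  exact y.2

theorem perfect_of_scd {X : Type} [TopologicalSpace X] [NormalSpace X] [T0Space X]
    (h : SigmaClosedDiscrete X) : T6Space X := by
  obtain ⟨C, hC, hU⟩ := h
  have : PerfectlyNormalSpace X := by
    refine ⟨fun A hA => ?_⟩
    have h1 : A = ⋂ n, (C n \ A)ᶜ := by
      ext x
      rw [mem_iInter]
      constructor
      · intro hx n hx'
        exact hx'.2 hx
      · intro hx
        by_contra hcon
        have h2 : x ∈ ⋃ n, C n := by rw [hU]; trivial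
        obtain ⟨n, hn⟩ := mem_iUnion.1 h2
        exact hx n ⟨hn, hcon⟩
    rw [h1]
    refine IsGδ.iInter_of_isOpen fun n => ?_
    exact (closed_of_subset (hC n).1 (hC n).2 sdiff_subset).isOpen_compl
  exact {}

theorem scd_prod {X Y : Type} [TopologicalSpace X] [TopologicalSpace Y]
    (hX : SigmaClosedDiscrete X) (hY : SigmaClosedDiscrete Y) : SigmaClosedDiscrete (X × Y) := by
  obtain ⟨C, hC, hU⟩ := hX
  obtain ⟨C', hC', hU'⟩ := hY
  refine ⟨fun n => C (Nat.unpair n).1 ×ˢ C' (Nat.unpair n).2, fun n => ⟨?_, ?_⟩, ?_⟩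
  · exact (hC _).1.prod (hC' _).1
  · have := (hC (Nat.unpair n).1).2
    have := (hC' (Nat.unpair n).2).2
    refine DiscreteTopology.of_continuous_injective
      (f := fun p : (C (Nat.unpair n).1 ×ˢ C' (Nat.unpair n).2 : Set (X × Y)) =>
        ((⟨p.1.1, p.2.1⟩ : C (Nat.unpair n).1), (⟨p.1.2, p.2.2⟩ : C' (Nat.unpair n).2))) ?_ ?_
    · fun_prop
    · rintro ⟨⟨a, b⟩, h⟩ ⟨⟨a', b'⟩, h'⟩ hp
      simp only [Prod.mk.injEq, Subtype.mk.injEq] at hp
      apply Subtype.ext
      exact Prod.ext hp.1 hp.2
  · rw [eq_univ_iff_forall]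
    rintro ⟨x, y⟩
    have h1 : x ∈ ⋃ n, C n := by rw [hU]; trivial
    have h2 : y ∈ ⋃ n, C' n := by rw [hU']; trivial
    obtain ⟨i, hi⟩ := mem_iUnion.1 h1
    obtain ⟨j, hj⟩ := mem_iUnion.1 h2
    refine mem_iUnion.2 ⟨Nat.pair i j, ?_⟩
    simp only [Nat.unpair_pair]
    exact ⟨hi, hj⟩

/-- The spaces with a suitable function on the isolated points are countable unions of closed
discrete subspaces. -/
theorem scd_sp {T I : Type} (n : T → Filter I) (c : I → ℕ)
    (hc : ∀ t k, {p | k ≤ c p} ∈ n t) : SigmaClosedDiscrete (Sp n) := by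
  let C : ℕ → Set (Sp n) := fun k => if k = 0 then range (Sp.a n) else {z | ∃ p, c p + 1 = k ∧
    z = Sp.b n p}
  have hsub : ∀ k, ∀ S : Set (Sp n), S ⊆ C k → IsClosed S := by
    intro k S hS
    rw [Sp.isClosed_iff]
    intro t ht
    by_cases hk : k = 0
    · have h1 : {p | Sp.b n p ∉ S} = univ := by
        rw [eq_univ_iff_forall]
        intro p hp
        have h2 := hS hp
        simp only [C, if_pos hk] at h2
        obtain ⟨t', ht'⟩ := h2
        exact Sp.a_ne_b ht'
      rw [h1]
      exact univ_mem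
    · filter_upwards [hc t k] with p hp hp'
      have h2 := hS hp'
      simp only [C, if_neg hk] at h2
      obtain ⟨p', h3, h4⟩ := h2
      rw [Sp.b_inj] at h4
      subst h4
      have h5 : k ≤ c p := hp
      omega
  refine ⟨C, fun k => ⟨hsub k _ Subset.rfl, discrete_of_closed (hsub k)⟩, ?_⟩
  rw [eq_univ_iff_forall]
  intro z
  rcases Sp.cases z with ⟨t, rfl⟩ | ⟨p, rfl⟩
  · refine mem_iUnion.2 ⟨0, ?_⟩
    simp only [C, if_true]
    exact ⟨t, rfl⟩
  · refine mem_iUnion.2 ⟨c p + 1, ?_⟩
    simp only [C, if_neg (Nat.succ_ne_zero _)]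
    exact ⟨p, rfl, rfl⟩

/-- The non-isolated points form a closed discrete set. -/
def NonIsolatedClosedDiscrete (X : Type) [TopologicalSpace X] : Prop :=
  ∃ A : Set X, (IsClosed A ∧ DiscreteTopology A) ∧ ∀ x, x ∉ A → IsOpen ({x} : Set X)

theorem nicd_sp {T I : Type} (n : T → Filter I) : NonIsolatedClosedDiscrete (Sp n) := by
  have hsub : ∀ S : Set (Sp n), S ⊆ range (Sp.a n) → IsClosed S := by
    intro S hS
    rw [Sp.isClosed_iff]
    intro t ht
    have h1 : {p | Sp.b n p ∉ S} = univ := by
      rw [eq_univ_iff_forall]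
      intro p hp
      obtain ⟨t', ht'⟩ := hS hp
      exact Sp.a_ne_b ht'
    rw [h1]
    exact univ_mem
  refine ⟨range (Sp.a n), ⟨hsub _ Subset.rfl, discrete_of_closed hsub⟩, fun x hx => ?_⟩
  rcases Sp.cases x with ⟨t, rfl⟩ | ⟨d, rfl⟩
  · exact absurd ⟨t, rfl⟩ hx
  · rw [Sp.isOpen_iff]
    intro t ht
    exact absurd ht Sp.a_ne_b

theorem scdX : SigmaClosedDiscrete SX := by
  refine scd_sp _ (fun d : D => d.1) fun _ k => ?_
  filter_upwards [large_mem k] with d hd
  exact le_of_lt hd

theorem scdY : SigmaClosedDiscrete SY := scd_sp _ (fun p : Iso => p.2.card) fun y k => nY_card y k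

theorem scdZ : SigmaClosedDiscrete SZ :=
  scd_sp _ (fun p : Iso => p.2.card) fun f k g => nY_card (f, g) k

/-- A space with at most one non-isolated point is paracompact. -/
theorem paracompact_of_one {W : Type} [TopologicalSpace W] (x0 : W)
    (h : ∀ x, x ≠ x0 → IsOpen ({x} : Set W)) : ParacompactSpace W := by
  classical
  refine ⟨fun α s ho hu => ?_⟩
  obtain ⟨a0, ha0⟩ : ∃ a, x0 ∈ s a := by
    have : x0 ∈ ⋃ a, s a := by rw [hu]; trivial
    exact mem_iUnion.1 this
  have hcov : ∀ p, ∃ a, p ∈ s a := by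
    intro p
    have : p ∈ ⋃ a, s a := by rw [hu]; trivial
    exact mem_iUnion.1 this
  refine ⟨Option W, fun o => match o with
    | none => s a0
    | some p => {z | z = p ∧ z ∉ s a0}, ?_, ?_, ?_, ?_⟩
  · intro o
    cases o with
    | none => exact ho a0
    | some p =>
      by_cases hp : p ∈ s a0
      · have h1 : {z | z = p ∧ z ∉ s a0} = (∅ : Set W) := by
          rw [eq_empty_iff_forall_notMem]
          rintro z ⟨rfl, hz⟩
          exact hz hp
        show IsOpen {z | z = p ∧ z ∉ s a0}
        rw [h1]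
        exact isOpen_empty
      · have h1 : {z | z = p ∧ z ∉ s a0} = ({p} : Set W) := by
          ext z
          constructor
          · rintro ⟨hz, _⟩
            exact hz
          · rintro rfl
            exact ⟨rfl, hp⟩
        show IsOpen {z | z = p ∧ z ∉ s a0}
        rw [h1]
        refine h p ?_
        rintro rfl
        exact hp ha0
  · rw [eq_univ_iff_forall]
    intro z
    by_cases hz : z ∈ s a0
    · exact mem_iUnion.2 ⟨none, hz⟩
    · exact mem_iUnion.2 ⟨some z, rfl, hz⟩
  · intro z
    by_cases hz0 : z = x0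
    · subst hz0
      refine ⟨s a0, (ho a0).mem_nhds ha0, ?_⟩
      refine (Set.finite_singleton (none : Option W)).subset ?_
      rintro (_ | p) hp
      · rfl
      · obtain ⟨z, hz1, hz2⟩ := hp
        exact absurd hz2 hz1.2
    · refine ⟨{z}, (h z hz0).mem_nhds rfl, ?_⟩
      refine ((Set.finite_singleton (some z)).insert (none : Option W)).subset ?_
      rintro (_ | q) hq
      · exact Or.inl rfl
      · obtain ⟨w, hw1, hw2⟩ := hq
        have h3 : w = z := hw2
        have h4 : w = q := hw1.1
        exact Or.inr (by simp [← h3, h4])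
  · intro o
    cases o with
    | none => exact ⟨a0, Subset.rfl⟩
    | some p =>
      obtain ⟨a, ha⟩ := hcov p
      refine ⟨a, ?_⟩
      rintro z ⟨rfl, _⟩
      exact ha

theorem isolatedX (x : SX) (hx : x ≠ XA) : IsOpen ({x} : Set SX) := by
  rcases Sp.cases x with ⟨⟨⟩, rfl⟩ | ⟨d, rfl⟩
  · exact absurd rfl hx
  · rw [Sp.isOpen_iff]
    intro t ht
    exact absurd ht Sp.a_ne_b

theorem hereditary (S : Set SX) : ParacompactSpace S := by
  rcases S.eq_empty_or_nonempty with rfl | ⟨y, hy⟩
  · refine ⟨fun α s ho hu => ⟨Empty, fun e => e.elim, fun e => e.elim, ?_, ?_, fun e => e.elim⟩⟩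
    · rw [eq_univ_iff_forall]
      intro z
      exact z.2.elim
    · intro z
      exact z.2.elim
  · by_cases hS : (XA : SX) ∈ S
    · refine paracompact_of_one (⟨XA, hS⟩ : S) fun x hx => ?_
      have h1 : x.1 ≠ XA := fun h => hx (Subtype.ext h)
      have h2 := (isolatedX x.1 h1).preimage (continuous_subtype_val (p := (· ∈ S)))
      convert h2 using 1
      ext z
      simp [Subtype.ext_iff]
    · refine paracompact_of_one (⟨y, hy⟩ : S) fun x _ => ?_
      have h1 : x.1 ≠ XA := fun h => hS (h ▸ x.2)
      have h2 := (isolatedX x.1 h1).preimage (continuous_subtype_val (p := (· ∈ S)))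
      convert h2 using 1
      ext z
      simp [Subtype.ext_iff]

/-- Negative answer (in ZFC) to Q2 in a strong form: there are perfectly normal Hausdorff spaces
`X`, `Y`, `Z`, each a countable union of closed discrete subspaces, such that `X` has at most one
non-isolated point and all its subspaces are paracompact, the non-isolated points of `Y` and of `Z`
form closed discrete sets, `X × Y` is perfectly normal, `Z` is the image of `Y` under a closed
continuous map, and `X × Z` is not normal. -/
theorem result : ∃ (X Y Z : Type) (_ : TopologicalSpace X) (_ : TopologicalSpace Y)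
    (_ : TopologicalSpace Z),
    T6Space X ∧ T6Space Y ∧ T6Space Z ∧
    SigmaClosedDiscrete X ∧ SigmaClosedDiscrete Y ∧ SigmaClosedDiscrete Z ∧
    (∃ x₀ : X, ∀ x, x ≠ x₀ → IsOpen ({x} : Set X)) ∧ (∀ S : Set X, ParacompactSpace S) ∧
    NonIsolatedClosedDiscrete Y ∧ NonIsolatedClosedDiscrete Z ∧
    T6Space (X × Y) ∧
    (∃ f : Y → Z, Continuous f ∧ IsClosedMap f ∧ Function.Surjective f) ∧
    ¬ NormalSpace (X × Z) := by
  have : Nonempty P := ⟨⟨fun _ => ∅, fun l => Sm.empty l⟩⟩
  have hX := SX_t35
  have hY := SY_t35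
  have hZ := SZ_t35
  have nX : NormalSpace SX := by
    have := Sp.paracompact (fun _ : Unit => fF)
    infer_instance
  have nY' : NormalSpace SY := Sp.normal fun A =>
    ⟨{p | A ∈ p.2}, fun t ht => nY_in ht, fun t ht => nY_out ht⟩
  have nZ' : NormalSpace SZ := Sp.normal fun A =>
    ⟨{p | {y : P × P | y.1 ∈ A} ∈ p.2}, fun t ht g => nY_in (by exact ht),
      fun t ht g => nY_out (by exact ht)⟩
  have nXY : NormalSpace (SX × SY) := XY_normal
  exact ⟨SX, SY, SZ, inferInstance, inferInstance, inferInstance, perfect_of_scd scdX,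
    perfect_of_scd scdY, perfect_of_scd scdZ, scdX, scdY, scdZ, ⟨XA, isolatedX⟩, hereditary,
    nicd_sp _, nicd_sp _,
    perfect_of_scd (scd_prod scdX scdY), ⟨qm nY nZ, qm_cont fun f S => Iff.rfl,
      qm_closed fun f S => Iff.rfl, qm_surj⟩, XZ_not_normal⟩

end Pool.Agent.Results.MP_8829b8_gt.OneNonIsolatedPoint
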